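import Pool.Agent.H7.HD.Targets2

/-!
# MP_e37c09_lc: module RB (`GoodB` is locally definable)
-/

open Ordinal Cardinal Order Set
open scoped ZFSet
open _root_.HD

universe u

namespace Pool.Agent.H81.HD.RB

/-- the relation is not single-valued -/
def NF (f : ZFSet.{u}) : Prop :=
  ∃ b i i' : ZFSet.{u}, ZFSet.pair b i ∈ f ∧ ZFSet.pair b i' ∈ f ∧ ¬ i = i'

theorem mem_V_pair {η : Ordinal.{u}} {x y z : ZFSet.{u}} (h : ZFSet.pair x y ∈ z)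
    (hz : z ∈ V_ η) : x ∈ V_ η ∧ y ∈ V_ η := by
  have h1 : ZFSet.pair x y ∈ V_ η := mem_V_of_mem h hz
  have h2 : ({x, y} : ZFSet.{u}) ∈ V_ η := mem_V_of_mem (by simp [ZFSet.pair]) h1
  exact ⟨mem_V_of_mem (by simp) h2, mem_V_of_mem (by simp) h2⟩

theorem loc_NF (j : ℕ) : Loc.{u} fun v => NF (v j) := by
  refine Loc.ex (R := fun b v => ∃ i i' : ZFSet.{u}, ZFSet.pair b i ∈ v j ∧
    ZFSet.pair b i' ∈ v j ∧ ¬ i = i') (Loc.ex (R := fun i v => ∃ i' : ZFSet.{u},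
      ZFSet.pair (v 0) i ∈ v (j + 1) ∧ ZFSet.pair (v 0) i' ∈ v (j + 1) ∧ ¬ i = i')
      (Loc.ex (R := fun i' v => ZFSet.pair (v 1) (v 0) ∈ v (j + 2) ∧
        ZFSet.pair (v 1) i' ∈ v (j + 2) ∧ ¬ v 0 = i')
        ((loc_pmem 2 1 (j + 3)).and ((loc_pmem 2 0 (j + 3)).and (Loc.eq 1 0).not)) ?_) ?_) ?_
  · rintro η hη v hv x ⟨-, h, -⟩
    exact (mem_V_pair h (hv _)).2
  · rintro η hη v hv x ⟨i', h, -, -⟩
    exact (mem_V_pair h (hv _)).2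
  · rintro η hη v hv x ⟨i, i', h, -, -⟩
    exact (mem_V_pair h (hv _)).1

theorem loc_not_mem_omega (j : ℕ) : Loc.{u} fun v => ∃ w : ZFSet.{u},
    w = (ω : Ordinal.{u}).toZFSet ∧ ¬ v j ∈ w := by
  refine Loc.ex (R := fun w v => w = (ω : Ordinal.{u}).toZFSet ∧ ¬ v j ∈ w)
    ((loc_omega 0).and (Loc.mem (j + 1) 0).not) ?_
  rintro η hη v hv x ⟨rfl, -⟩
  exact Gd.ord.2 hη.2

theorem t_RB (hRC : T_RC.{u}) (hRL : T_RL.{u}) (hLA : T_LA.{u}) : T_RB.{u} := by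
  have hpos : Loc.{u} fun v => (v 3).IsOrdinal ∧ (v 2).IsOrdinal ∧
      Pos (v 3).rank (v 2).rank {b | ZFSet.pair b.toZFSet (v 0) ∈ v 1} :=
    loc_pos hLA (P := fun b v => ZFSet.pair b (v 0) ∈ v 1) 3 2 (loc_pmem 0 1 2)
  refine Loc.congr (P := fun v => (v 0).IsOrdinal ∧ (v 1).IsOrdinal ∧
    ((v 1).IsOrdinal ∧ ∃ D : Cardinal.{u}, (v 1).rank = D.ord ∧ D.IsRegular ∧
      D.IsStrongLimit ∧ ℵ₀ < D) ∧
    ∃ A, ((v 0).IsOrdinal ∧ A = V_ (v 0).rank) ∧ ∀ μ ∈ v 1,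
      (∃ w : ZFSet.{u}, w = (ω : Ordinal.{u}).toZFSet ∧ ¬ μ ∈ w) →
      (μ.IsOrdinal ∧ μ.IsOrdinal ∧ Cf μ.rank μ.rank) → ∀ κ ∈ v 0,
      (∀ ν ∈ v 1, ¬ (ν.IsOrdinal ∧ κ.IsOrdinal ∧ Cf ν.rank κ.rank)) → ∀ f ∈ A,
      ((v 0).IsOrdinal ∧ ODb (v 0).rank f) → ¬ NF f →
      ¬ ∀ i ∈ v 1, (μ.IsOrdinal ∧ κ.IsOrdinal ∧
        Pos μ.rank κ.rank {b | ZFSet.pair b.toZFSet i ∈ f})) ?_ ?_
  · refine (loc_ord 0).and ((loc_ord 1).and (Loc.and (hRC.ren fun n => if n = 0 then 1 else n)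
      (Loc.ex (Loc.and (loc_V 1 0) ?_) ?_)))
    · refine Loc.allMem 2 ((loc_not_mem_omega 0).imp ((hLA.ren fun _ => 0).imp
        (Loc.allMem 2 (Loc.imp (Loc.allMem 4 (Loc.not (hLA.ren fun n => n))) (Loc.allMem 2
          (Loc.imp (hRL.ren fun n => if n = 0 then 0 else 4) ((loc_NF 0).not.imp
            (Loc.not (Loc.allMem 5 hpos)))))))))
    · rintro η hη v hv x ⟨⟨h1, rfl⟩, -⟩
      rw [ZFSet.mem_vonNeumann, ZFSet.rank_vonNeumann]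
      exact ZFSet.mem_vonNeumann.1 (hv 0)
  · intro v
    refine and_congr_right fun h0 => and_congr_right fun h1 => ?_
    obtain ⟨β, hβ⟩ := ord_of h0
    obtain ⟨δ, hδ⟩ := ord_of h1
    rw [hβ, hδ]
    simp only [rank_toZFSet]
    unfold GoodB
    constructor
    · rintro ⟨hD, h⟩
      refine ⟨⟨ZFSet.isOrdinal_toZFSet _, hD⟩, _, ⟨ZFSet.isOrdinal_toZFSet _, rfl⟩, ?_⟩
      rintro μ hμ ⟨w, rfl, hw⟩ ⟨-, -, hc⟩ κ hκ hcof f - ⟨-, hod⟩ hNF hall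
      obtain ⟨μ, hμ', rfl⟩ := mem_toZFSet_iff.1 hμ
      obtain ⟨κ, hκ', rfl⟩ := mem_toZFSet_iff.1 hκ
      rw [rank_toZFSet] at hc
      rw [toZFSet_mem_toZFSet_iff, not_lt] at hw
      refine h μ hμ' hw hc κ hκ' ?_ f hod ?_ ?_
      · by_contra hlt
        rw [not_le] at hlt
        refine hcof _ (toZFSet_mem_toZFSet_iff.2 hlt) ⟨ZFSet.isOrdinal_toZFSet _,
          ZFSet.isOrdinal_toZFSet _, ?_⟩
        rw [rank_toZFSet, rank_toZFSet]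
        rfl
      · intro b i i' hi hi'
        by_contra hne
        exact hNF ⟨b, i, i', hi, hi', hne⟩
      · intro i hi
        have := (hall _ (toZFSet_mem_toZFSet_iff.2 hi)).2.2
        rw [rank_toZFSet, rank_toZFSet] at this
        exact this
    · rintro ⟨⟨-, hD⟩, A, ⟨-, rfl⟩, h⟩
      refine ⟨hD, fun μ hμ hω hc κ hκ hcof f hod hfun hall => ?_⟩
      refine h _ (toZFSet_mem_toZFSet_iff.2 hμ) ⟨_, rfl, ?_⟩ ⟨ZFSet.isOrdinal_toZFSet _,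
        ZFSet.isOrdinal_toZFSet _, ?_⟩ _ (toZFSet_mem_toZFSet_iff.2 hκ) ?_ f ?_
        ⟨ZFSet.isOrdinal_toZFSet _, hod⟩ ?_ ?_
      · rw [toZFSet_mem_toZFSet_iff, not_lt]
        exact hω
      · rw [rank_toZFSet]
        exact hc
      · rintro ν hν ⟨-, -, hcf⟩
        obtain ⟨ν, hν', rfl⟩ := mem_toZFSet_iff.1 hν
        rw [rank_toZFSet, rank_toZFSet] at hcf
        unfold Cf at hcf
        rw [hcf] at hcof
        exact absurd hν' (not_lt.2 hcof)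
      · obtain ⟨N, hN, -, hden⟩ := hod
        exact ZFSet.vonNeumann_subset_of_le hN.le hden.1
      · rintro ⟨b, i, i', hi, hi', hne⟩
        exact hne (hfun b i i' hi hi')
      · intro i hi
        obtain ⟨i, hi', rfl⟩ := mem_toZFSet_iff.1 hi
        refine ⟨ZFSet.isOrdinal_toZFSet _, ZFSet.isOrdinal_toZFSet _, ?_⟩
        rw [rank_toZFSet, rank_toZFSet]
        exact hall i hi'

end Pool.Agent.H81.HD.RB
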